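import Pool.Agent.H13.K2S.Skel

/-!
# Claims of unbounded depth

As `Pool.K2S.Claim`, but the number of lists of properties may depend on the freedoms of the
earlier lists. In particular a scale where the fans are spread can be chosen after the freedom of
the list of labels.
-/

set_option autoImplicit false

namespace Pool.K2S

open Finset Real
open Pool.Agent.H49.Ent Pool.Agent.H32.Dense Pool.STK Pool.KA

variable {m : ℕ}

/-- The statement holds for stable events of maximal families; the lists of properties may depend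
on the freedoms of the earlier lists. -/
inductive Clm (a R : ℝ) : Stat m → Prop
  | base {Φ : Stat m} (τ : ℝ) (hτ : 0 < τ) (J₁ : ℕ)
      (h : ∀ J ≥ J₁, ∀ (F : Fam m J) (A : F.Ω → Prop), Fam.Stt F a R τ A → Φ J F A) : Clm a R Φ
  | step {Φ : Stat m} (L : PList m)
      (h : ∀ κ : ℝ, 0 < κ → Clm a R (fun _ F A => L.Sb F κ A → Φ _ F A)) : Clm a R Φ

theorem Clm.mono {a R : ℝ} {J₂ : ℕ} {Φ : Stat m} (hc : Clm a R Φ) : ∀ {Ψ : Stat m},
    (∀ J ≥ J₂, ∀ (F : Fam m J) (A : F.Ω → Prop), Φ J F A → Ψ J F A) → Clm a R Ψ := by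
  induction hc with
  | base τ hτ J₁ h =>
    intro Ψ hΨ
    exact Clm.base τ hτ (max J₁ J₂) fun J hJ F A hA =>
      hΨ J ((le_max_right _ _).trans hJ) F A (h J ((le_max_left _ _).trans hJ) F A hA)
  | step L h ih =>
    intro Ψ hΨ
    exact Clm.step L fun κ hκ => ih κ hκ fun J hJ F A h1 h2 => hΨ J hJ F A (h1 h2)

theorem Cl.clm {a R : ℝ} : ∀ {r : ℕ} {Φ : Stat m}, Cl a R r Φ → Clm a R Φ
  | 0, _, ⟨τ, hτ, J₁, h⟩ => Clm.base τ hτ J₁ h
  | _ + 1, _, ⟨L, h⟩ => Clm.step L fun κ hκ => Cl.clm (h κ hκ)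

theorem Claim.clm {a R : ℝ} {Φ : Stat m} (h : Claim a R Φ) : Clm a R Φ := by
  obtain ⟨r, hr⟩ := h
  exact hr.clm

/-- A claim which holds without stability. -/
theorem Clm.of {a R τ : ℝ} {Φ : Stat m} (hτ : 0 < τ) (J₁ : ℕ)
    (h : ∀ J ≥ J₁, ∀ (F : Fam m J) (A : F.Ω → Prop), Fam.Stt F a R τ A → Φ J F A) :
    Clm a R Φ := Clm.base τ hτ J₁ h

/-- A claim with one level. -/
theorem Clm.one {a R : ℝ} {Φ : Stat m} (L : PList m)
    (h : ∀ κ > 0, ∃ τ > 0, ∃ J₁ : ℕ, ∀ J ≥ J₁, ∀ (F : Fam m J) (A : F.Ω → Prop),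
      Fam.Stt F a R τ A → L.Sb F κ A → Φ J F A) : Clm a R Φ := (Claim.one L h).clm

theorem Clm.and {a R : ℝ} {Φ Ψ : Stat m} (h1 : Clm a R Φ) (h2 : Clm a R Ψ) :
    Clm a R (fun _ F A => Φ _ F A ∧ Ψ _ F A) := by
  induction h1 generalizing Ψ with
  | base τ hτ J₁ h =>
    induction h2 with
    | base τ' hτ' J₁' h' =>
      exact Clm.base (min τ τ') (lt_min hτ hτ') (max J₁ J₁') fun J hJ F A hA =>
        ⟨h J ((le_max_left _ _).trans hJ) F A (hA.mono (min_le_left _ _)),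
        h' J ((le_max_right _ _).trans hJ) F A (hA.mono (min_le_right _ _))⟩
    | step L' h' ih' =>
      refine Clm.step L' fun κ hκ => ?_
      exact Clm.mono (J₂ := 0) (ih' κ hκ) fun J _ F A h3 h4 => ⟨h3.1, h3.2 h4⟩
  | step L h ih =>
    refine Clm.step L fun κ hκ => ?_
    exact Clm.mono (J₂ := 0) (ih κ hκ h2) fun J _ F A h3 h4 => ⟨h3.1 h4, h3.2⟩

theorem Clm.mp {a R : ℝ} {Φ Ψ : Stat m} (h1 : Clm a R (fun _ F A => Φ _ F A → Ψ _ F A))
    (h2 : Clm a R Φ) : Clm a R Ψ :=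
  Clm.mono (J₂ := 0) (h1.and h2) fun _ _ _ _ h => h.1 h.2

/-- Claims whose statement may depend on the freedom of a list. -/
theorem Clm.list {a R : ℝ} {Φ : Stat m} (L : PList m)
    (h : ∀ κ : ℝ, 0 < κ → Clm a R (fun _ F A => L.Sb F κ A → Φ _ F A)) : Clm a R Φ :=
  Clm.step L h

theorem Clm.fin {a R : ℝ} : ∀ {n : ℕ} {Φ : Fin n → Stat m}, (∀ i, Clm a R (Φ i)) →
    Clm a R (fun _ F A => ∀ i, Φ i _ F A)
  | 0, _, _ => Clm.of one_pos 0 (fun _ _ _ _ _ i => Fin.elim0 i)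
  | n + 1, Φ, h => by
    refine Clm.mono (J₂ := 0) ((h 0).and (Clm.fin (Φ := fun i : Fin n => Φ i.succ)
      fun i => h i.succ)) ?_
    rintro J - F A ⟨h1, h2⟩ i
    exact Fin.cases h1 h2 i

theorem Clm.finite {a R : ℝ} {ι : Type} [Finite ι] {Φ : ι → Stat m}
    (h : ∀ i, Clm a R (Φ i)) : Clm a R (fun _ F A => ∀ i, Φ i _ F A) := by
  obtain ⟨n, ⟨e⟩⟩ := Finite.exists_equiv_fin ι
  refine Clm.mono (J₂ := 0) (Clm.fin (Φ := fun i : Fin n => Φ (e.symm i)) fun i => h _) ?_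
  intro J _ F A h1 i
  have := h1 (e i)
  simpa using this

/-- Finitely many claims. -/
theorem Clm.all {a R : ℝ} (n : ℕ) {Φ : ℕ → Stat m} (h : ∀ i < n, Clm a R (Φ i)) :
    Clm a R (fun _ F A => ∀ i < n, Φ i _ F A) := by
  refine Clm.mono (J₂ := 0) (Clm.fin (Φ := fun i : Fin n => Φ i) fun i => h i i.2) ?_
  intro J _ F A h1 i hi
  exact h1 ⟨i, hi⟩

/-- A claim under a condition which does not depend on the family. -/
theorem Clm.cnd {a R : ℝ} {P : Prop} {Φ : Stat m} (h : P → Clm a R Φ) :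
    Clm a R (fun _ F A => P → Φ _ F A) := by
  by_cases hP : P
  · exact Clm.mono (J₂ := 0) (h hP) (fun _ _ _ _ h1 _ => h1)
  · exact Clm.of one_pos 0 (fun _ _ _ _ _ h1 => absurd h1 hP)

theorem Clm.win {a R : ℝ} {Φ : Stat m} (hc : Clm a R Φ) : ∀ δ > 0,
    ∃ c > 0, ∃ J₁ : ℕ, ∀ J ≥ J₁, ∀ (F : Fam m J) (A₀ : F.Ω → Prop), Fam.Stt F a R c A₀ →
      ∃ A : F.Ω → Prop, Sub A A₀ ∧ Real.exp (-(δ * J)) * Pe F.p A₀ ≤ Pe F.p A ∧ Φ J F A := by
  induction hc with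
  | base τ hτ J₁ h =>
    intro δ hδ
    refine ⟨τ, hτ, J₁, fun J hJ F A₀ hS => ⟨A₀, fun _ h => h, ?_, h J hJ F A₀ hS⟩⟩
    have : Real.exp (-(δ * J)) ≤ 1 := by
      rw [Real.exp_le_one_iff]
      have : 0 ≤ δ * J := by positivity
      linarith
    calc _ ≤ 1 * Pe F.p A₀ := mul_le_mul_of_nonneg_right this (Pe_nonneg F.isLaw A₀)
      _ = _ := one_mul _
  | @step Φ L hL ih =>
    intro δ hδ
    have key : ∀ κ : ℝ, ∃ c : ℝ, ∃ J₁ : ℕ, 0 < κ → 0 < c ∧ ∀ J ≥ J₁, ∀ (F : Fam m J)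
        (A₀ : F.Ω → Prop), Fam.Stt F a R c A₀ → ∃ A : F.Ω → Prop, Sub A A₀ ∧
        Real.exp (-(min κ (δ / 2) * J)) * Pe F.p A₀ ≤ Pe F.p A ∧ (L.Sb F κ A → Φ J F A) := by
      intro κ
      by_cases hκ : 0 < κ
      · obtain ⟨c, hc, J₁, h⟩ := ih κ hκ (min κ (δ / 2)) (lt_min hκ (half_pos hδ))
        exact ⟨c, J₁, fun _ => ⟨hc, h⟩⟩
      · exact ⟨0, 0, fun h => absurd h hκ⟩
    choose c J₁ hc using key
    obtain ⟨κ, hκ0, hκ⟩ := exists_seq L.n (fun κ => min (c κ / 4) (δ / 4))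
      (fun κ hκ => lt_min (by have := (hc κ hκ).1; linarith) (by linarith))
    obtain ⟨μ, hμ0, hμ⟩ : ∃ μ > 0, ∀ n ≤ L.n, μ ≤ c (κ n) / 2 := by
      have hne : ((range (L.n + 1)).image fun n => c (κ n) / 2).Nonempty :=
        ⟨c (κ 0) / 2, Finset.mem_image.2 ⟨0, Finset.mem_range.2 (by omega), rfl⟩⟩
      refine ⟨((range (L.n + 1)).image fun n => c (κ n) / 2).min' hne, ?_, fun n hn => ?_⟩
      · obtain ⟨n, -, hn⟩ := Finset.mem_image.1 (Finset.min'_mem _ hne)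
        rw [← hn]
        exact half_pos (hc _ (hκ0 n)).1
      · exact Finset.min'_le _ _ (Finset.mem_image.2 ⟨n, Finset.mem_range.2 (by omega), rfl⟩)
    obtain ⟨J₂, hJ₂⟩ : ∃ J₂ : ℕ, ∀ n ≤ L.n, J₁ (κ n) ≤ J₂ :=
      ⟨∑ n ∈ range (L.n + 1), J₁ (κ n), fun n hn =>
        Finset.single_le_sum (f := fun n => J₁ (κ n)) (fun _ _ => Nat.zero_le _)
          (Finset.mem_range.2 (by omega))⟩
    refine ⟨μ, hμ0, J₂, fun J hJ F A₀ hS => ?_⟩
    have hJr : (0 : ℝ) ≤ J := Nat.cast_nonneg J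
    obtain ⟨n, hn, A₁, hA1, hP1, hS1⟩ := stab_inside (p := F.p) (L.Q J F) (L.her J F)
      (fun i => 2 * κ i * J) A₀
    have hsum : ∑ i ∈ range n, 2 * κ i * J = 2 * (∑ i ∈ range n, κ i) * J := by
      rw [Finset.mul_sum, Finset.sum_mul]
    rw [hsum] at hP1
    have hle := hκ n hn
    have hle1 : ∑ i ∈ range n, κ i ≤ c (κ n) / 4 := hle.trans (min_le_left _ _)
    have hle2 : ∑ i ∈ range n, κ i ≤ δ / 4 := hle.trans (min_le_right _ _)
    obtain ⟨hcn, hwin⟩ := hc (κ n) (hκ0 n)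
    have hS' : Fam.Stt F a R (c (κ n)) A₁ := by
      have h0 := hS.mono (τ' := c (κ n)) ((hμ n hn).trans (by linarith))
      refine ⟨h0.1, h0.2.1, h0.2.2.1, ?_⟩
      refine le_trans ?_ hP1
      refine le_trans ?_ (mul_le_mul_of_nonneg_left hS.2.2.2 (Real.exp_pos _).le)
      rw [← Real.exp_add]
      refine Real.exp_le_exp.2 ?_
      have e1 : 2 * (∑ i ∈ range n, κ i) * J ≤ c (κ n) / 2 * J :=
        mul_le_mul_of_nonneg_right (by linarith) hJr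
      have e2 : μ * J ≤ c (κ n) / 2 * J := mul_le_mul_of_nonneg_right (hμ n hn) hJr
      linarith
    obtain ⟨A, hA, hP, hΦ⟩ := hwin J ((hJ₂ n hn).trans hJ) F A₁ hS'
    refine ⟨A, hA.trans hA1, ?_, hΦ fun i => ?_⟩
    · refine le_trans ?_ hP
      refine le_trans ?_ (mul_le_mul_of_nonneg_left hP1 (Real.exp_pos _).le)
      rw [← mul_assoc, ← Real.exp_add]
      refine mul_le_mul_of_nonneg_right (Real.exp_le_exp.2 ?_) (Pe_nonneg F.isLaw A₀)
      have e1 : 2 * (∑ i ∈ range n, κ i) * J ≤ δ / 2 * J :=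
        mul_le_mul_of_nonneg_right (by linarith) hJr
      have e2 : min (κ n) (δ / 2) * J ≤ δ / 2 * J :=
        mul_le_mul_of_nonneg_right (min_le_right _ _) hJr
      linarith
    · have h1 := (hS1 i).sub (L.her J F i) hA hP
      refine h1.mono F.isLaw ?_
      have e2 : min (κ n) (δ / 2) * J ≤ κ n * J :=
        mul_le_mul_of_nonneg_right (min_le_left _ _) hJr
      linarith

/-- **Realisation.** -/
theorem Clm.real (hREX : REXStmt) {a R : ℝ} (ha : 1 ≤ a) (hR : 0 < R) (hU : UBa m a R)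
    (hL : LBa m a R) {Φ : Stat m} (hΦ : Clm a R Φ) {τ : ℝ} (hτ : 0 < τ) (J₀ : ℕ) :
    ∃ J ≥ J₀, ∃ (F : Fam m J) (A : F.Ω → Prop), Fam.Stt F a R τ A ∧ Φ J F A := by
  obtain ⟨c, hc, J₁, h⟩ := hΦ.win (τ / 2) (half_pos hτ)
  obtain ⟨c', hc'⟩ : ∃ c', c' = min c (τ / 2) := ⟨_, rfl⟩
  have hc'0 : 0 < c' := by rw [hc']; exact lt_min hc (half_pos hτ)
  obtain ⟨J, hJ, F, h1, h2, h3⟩ := hREX m a R ha hR hU hL c' hc'0 c' hc'0 (max J₀ J₁)
  have hp := F.isLaw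
  have hJr : (0 : ℝ) ≤ J := Nat.cast_nonneg J
  have hS : Fam.Stt F a R c' (fun _ => True) := by
    refine ⟨h2, h1, h3, ?_⟩
    rw [Pe_univ hp, Real.exp_le_one_iff]
    have : 0 ≤ c' * J := by positivity
    linarith
  obtain ⟨A, -, hP, hΦA⟩ := h J ((le_max_right _ _).trans hJ) F _
    (hS.mono (by rw [hc']; exact min_le_left _ _))
  refine ⟨J, (le_max_left _ _).trans hJ, F, A, ?_, hΦA⟩
  have h0 := hS.mono (τ' := τ) (by rw [hc']; exact (min_le_right _ _).trans (by linarith))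
  refine ⟨h0.1, h0.2.1, h0.2.2.1, ?_⟩
  refine le_trans ?_ hP
  rw [Pe_univ hp, mul_one]
  refine Real.exp_le_exp.2 ?_
  have : τ / 2 * J ≤ τ * J := mul_le_mul_of_nonneg_right (by linarith) hJr
  linarith

/-- The entropy inequality follows from a contradiction in stable maximal families. -/
theorem kp_of_clm (hAEX : AEXStmt) (hREX : REXStmt)
    (h : ∀ a R : ℝ, 1 < a → 0 < R → UBa m a R → Clm (m := m) a R (fun _ _ _ => False)) :
    KP m := by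
  by_contra hK
  obtain ⟨a₀, ha₀, hex⟩ := hAEX m hK
  obtain ⟨R, hR, -, hU, hL⟩ := hex a₀ ha₀ le_rfl
  obtain ⟨J, -, F, A, -, hF⟩ := Clm.real hREX ha₀.le hR hU hL (h a₀ R ha₀ hR hU) one_pos 0
  exact hF

end Pool.K2S
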